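import Mathlib

/-!
# Pairs of congruent numbers with a prescribed quotient, in prescribed classes modulo `8`

For any two squarefree numbers `n₀`, `m₀` (for example two numbers `5, 6, 7` modulo `8`) there are
arbitrarily large squarefree congruent numbers `n ≡ n₀`, `m ≡ m₀` modulo `8` with the same quotient,
up to squares: `n m n₀ m₀` is a square.

Proof. Let `x + y + z = 0` and `N = 3 (x - y) (y - z) (z - x)`. The right triangle given by
`(3 x, z - y)` shows that `x N` is, up to sign, a congruent number; by symmetry the same holds for `y N`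
and `z N`. In positive numbers: `b N`, `(b + e) N` and `(2 b + e) N` are congruent, where
`N = 3 (3 b + e) e (3 b + 2 e)`. With `b = s ^ 2` and `b + e = d r ^ 2`, or `b = s ^ 2` and
`2 b + e = d r ^ 2`, the numbers `N` and `d N` are congruent. All classes of `N` in the group of the
square classes of the `2`-adic numbers occur, whatever the class of `d`, and for suitable `r` a large prime
divides `N` exactly once, so that the squarefree part of `N` is large.
-/

set_option autoImplicit false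

namespace Pool.Agent.K6.H24.CN.PairsAllClasses

/-- `a` is a congruent number: `x² + a y² = z²`, `x² - a y² = t²` is solvable in positive integers. -/
def Congruent (a : ℕ) : Prop :=
  ∃ x y z t : ℕ, 0 < x ∧ 0 < y ∧ 0 < z ∧ 0 < t ∧ x ^ 2 + a * y ^ 2 = z ^ 2 ∧
    t ^ 2 + a * y ^ 2 = x ^ 2

theorem cong_of_int {a : ℕ} {X Y Z T : ℤ} (hX : X ≠ 0) (hY : Y ≠ 0) (hZ : Z ≠ 0) (hT : T ≠ 0)
    (h1 : X ^ 2 + a * Y ^ 2 = Z ^ 2) (h2 : T ^ 2 + a * Y ^ 2 = X ^ 2) : Congruent a := by
  refine ⟨X.natAbs, Y.natAbs, Z.natAbs, T.natAbs, Int.natAbs_pos.2 hX, Int.natAbs_pos.2 hY,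
    Int.natAbs_pos.2 hZ, Int.natAbs_pos.2 hT, ?_, ?_⟩
  · zify
    simpa [sq_abs] using h1
  · zify
    simpa [sq_abs] using h2

theorem cong_scale {a k : ℕ} (hk : 0 < k) (h : Congruent (a * k ^ 2)) : Congruent a := by
  obtain ⟨x, y, z, t, hx, hy, hz, ht, h1, h2⟩ := h
  refine ⟨x, k * y, z, t, hx, Nat.mul_pos hk hy, hz, ht, ?_, ?_⟩
  · rw [← h1]; ring
  · rw [← h2]; ring

theorem sq_ne_two_mul (m n : ℤ) (hn : n ≠ 0) : m ^ 2 ≠ 2 * n ^ 2 := by
  intro h
  have hn' : (n : ℝ) ≠ 0 := by exact_mod_cast hn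
  have h1 : ((m : ℝ) / n) ^ 2 = 2 := by
    have : (m : ℝ) ^ 2 = 2 * (n : ℝ) ^ 2 := by exact_mod_cast h
    rw [div_pow, this]
    field_simp
  have h2 : |((m : ℝ) / n)| = Real.sqrt 2 := by
    rw [← h1, Real.sqrt_sq_eq_abs]
  exact irrational_sqrt_two ⟨|(m : ℚ) / n|, by rw [← h2]; push_cast; rfl⟩

/-- The right triangle given by `(u, w)`. -/
theorem cong_of_pair (A : ℕ) (u w Y : ℤ) (hu : u ≠ 0) (hw : w ≠ 0) (hY : Y ≠ 0)
    (h : A * Y ^ 2 = 4 * u * w * (u ^ 2 - w ^ 2)) : Congruent A := by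
  have hpos : 0 < u ^ 2 + w ^ 2 := by positivity
  refine cong_of_int (X := u ^ 2 + w ^ 2) (Y := Y) (Z := u ^ 2 + 2 * u * w - w ^ 2)
    (T := u ^ 2 - 2 * u * w - w ^ 2) hpos.ne' hY ?_ ?_ ?_ ?_
  · intro h0
    exact sq_ne_two_mul (u + w) w hw (by linear_combination h0)
  · intro h0
    exact sq_ne_two_mul (u - w) w hw (by linear_combination h0)
  · rw [h]; ring
  · rw [h]; ring

/-- The family. -/
theorem cong_family (b e : ℕ) (hb : 0 < b) (he : 0 < e) :
    Congruent (b * (3 * (3 * b + e) * e * (3 * b + 2 * e))) ∧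
      Congruent ((b + e) * (3 * (3 * b + e) * e * (3 * b + 2 * e))) ∧
      Congruent ((2 * b + e) * (3 * (3 * b + e) * e * (3 * b + 2 * e))) := by
  refine ⟨?_, ?_, ?_⟩
  · refine cong_of_pair _ (3 * b + 2 * e) (3 * b) 4 (by positivity) (by positivity) (by norm_num) ?_
    push_cast
    ring
  · refine cong_of_pair _ (3 * (b + e)) (3 * b + e) 4 (by positivity) (by positivity) (by norm_num) ?_
    push_cast
    ring
  · refine cong_of_pair _ (3 * (2 * b + e)) e 4 (by positivity) (by positivity) (by norm_num) ?_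
    push_cast
    ring

/-- Arbitrarily large primes which divide `d r ^ 2 + c` exactly once, `r` in a residue class. -/
theorem exists_prime (d c r₀ M B : ℕ) (hd : 0 < d) (hc : 0 < c) (hM : 0 < M) (hcB : c ≤ B)
    (hB : 2 * d * M ≤ B) : ∃ r ℓ : ℕ, ℓ.Prime ∧ B < ℓ ∧ B ≤ r ∧ r % M = r₀ % M ∧
    ℓ ∣ d * r ^ 2 + c ∧ ¬ ℓ ^ 2 ∣ d * r ^ 2 + c := by
  set c₀ := d * r₀ ^ 2 + c with hc₀
  have hc0 : 0 < c₀ := by positivity
  set t := c₀ * B.factorial with ht
  have hf : 0 < B.factorial := Nat.factorial_pos B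
  have ht0 : 0 < t := Nat.mul_pos hc0 hf
  set r₁ := r₀ + M * t with hr₁
  set g := 1 + B.factorial * (2 * d * r₀ * M + d * M ^ 2 * t) with hg
  have hF : d * r₁ ^ 2 + c = c₀ * g := by
    have e1 : d * r₁ ^ 2 + c = c₀ + (2 * d * r₀ * M + d * M ^ 2 * t) * t := by
      rw [hr₁, hc₀]; ring
    rw [e1, hg]
    nth_rewrite 2 [ht]
    ring
  have hg1 : g ≠ 1 := by
    have : 0 < B.factorial * (2 * d * r₀ * M + d * M ^ 2 * t) := by positivity
    omega
  set ℓ := g.minFac with hℓ
  have hp : ℓ.Prime := Nat.minFac_prime hg1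
  have hℓg : ℓ ∣ g := Nat.minFac_dvd _
  have hBℓ : B < ℓ := by
    by_contra hle
    have h1 : ℓ ∣ B.factorial := Nat.dvd_factorial hp.pos (not_lt.1 hle)
    have h2 : ℓ ∣ 1 := by
      rw [hg] at hℓg
      exact (Nat.dvd_add_left (Dvd.dvd.mul_right h1 _)).1 hℓg
    exact hp.one_lt.ne' (Nat.dvd_one.1 h2)
  have hdvd : ℓ ∣ d * r₁ ^ 2 + c := by
    rw [hF]
    exact Dvd.dvd.mul_left hℓg c₀
  have hBr : B ≤ r₁ := by
    calc B ≤ B.factorial := Nat.self_le_factorial B
      _ ≤ c₀ * B.factorial := Nat.le_mul_of_pos_left _ hc0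
      _ = t := rfl
      _ ≤ M * t := Nat.le_mul_of_pos_left _ hM
      _ ≤ r₁ := Nat.le_add_left _ _
  by_cases h : ℓ ^ 2 ∣ d * r₁ ^ 2 + c
  · refine ⟨r₁ + M * ℓ, ℓ, hp, hBℓ, by omega, ?_, ?_, ?_⟩
    · rw [Nat.add_mul_mod_self_left, hr₁, Nat.add_mul_mod_self_left]
    · have e : d * (r₁ + M * ℓ) ^ 2 + c =
          (d * r₁ ^ 2 + c) + ℓ * (2 * d * M * r₁ + d * M ^ 2 * ℓ) := by ring
      rw [e]
      exact dvd_add hdvd (dvd_mul_right _ _)
    · intro h2
      have e : d * (r₁ + M * ℓ) ^ 2 + c =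
          (d * r₁ ^ 2 + c + ℓ ^ 2 * (d * M ^ 2)) + ℓ * (2 * d * M * r₁) := by ring
      rw [e] at h2
      have h3 : ℓ ^ 2 ∣ ℓ * (2 * d * M * r₁) :=
        (Nat.dvd_add_right (dvd_add h (dvd_mul_right _ _))).1 h2
      have h4 : ℓ ∣ 2 * d * M * r₁ := by
        rw [pow_two] at h3
        exact Nat.dvd_of_mul_dvd_mul_left hp.pos h3
      rcases (hp.dvd_mul).1 h4 with h5 | h5
      · exact absurd (Nat.le_of_dvd (by positivity) h5) (by omega)
      · have h6 : ℓ ∣ c := by
          have : ℓ ∣ d * r₁ ^ 2 := Dvd.dvd.mul_left (dvd_pow h5 two_ne_zero) d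
          exact (Nat.dvd_add_right this).1 hdvd
        exact absurd (Nat.le_of_dvd hc h6) (by omega)
  · refine ⟨r₁, ℓ, hp, hBℓ, hBr, ?_, hdvd, h⟩
    rw [hr₁, Nat.add_mul_mod_self_left]

/-- The main construction: `n` is the squarefree part of `N` and `m` that of `d N`. -/
theorem construct (d s r₀ M B g : ℕ) (hd : 0 < d) (hs : 0 < s) (hM : 0 < M) (hg : g = 1 ∨ g = 2) :
    ∃ r n m k k' e : ℕ, B < n ∧ B < m ∧ Squarefree n ∧ Squarefree m ∧ r % M = r₀ % M ∧
      d * r ^ 2 = g * s ^ 2 + e ∧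
      k ^ 2 * n = 3 * (3 * s ^ 2 + e) * e * (3 * s ^ 2 + 2 * e) ∧ k' ^ 2 * m = d * n ∧
      Congruent n ∧ Congruent m := by
  obtain ⟨r, ℓ, hp, hBℓ, hBr, hrM, hdvd, hndvd⟩ :=
    exists_prime d ((3 - g) * s ^ 2) r₀ M (B + 2 * d * M + 2 * s ^ 2 + 2 * s + 3) hd
      (Nat.mul_pos (by omega) (by positivity)) hM
      (by
        have : (3 - g) * s ^ 2 ≤ 2 * s ^ 2 := Nat.mul_le_mul_right _ (by omega)
        omega) (by omega)
  have hdM : d ≤ 2 * d * M := by nlinarith
  have hr : 2 * s + 3 ≤ r := by omega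
  have hr2 : g * s ^ 2 < d * r ^ 2 := by
    have h1 : (2 * s + 3) ^ 2 ≤ r ^ 2 := Nat.pow_le_pow_left hr 2
    have h2 : r ^ 2 ≤ d * r ^ 2 := Nat.le_mul_of_pos_left _ hd
    have h3 : 2 * s ^ 2 < (2 * s + 3) ^ 2 := by nlinarith
    have h4 : g * s ^ 2 ≤ 2 * s ^ 2 := Nat.mul_le_mul_right _ (by omega)
    omega
  obtain ⟨e, he⟩ : ∃ e : ℕ, d * r ^ 2 = g * s ^ 2 + e := ⟨d * r ^ 2 - g * s ^ 2, by omega⟩
  have he0 : 0 < e := by omega
  have hb : 0 < s ^ 2 := by positivity
  obtain ⟨hcb, hc1, hc2⟩ := cong_family (s ^ 2) e hb he0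
  have hca : Congruent (d * r ^ 2 * (3 * (3 * s ^ 2 + e) * e * (3 * s ^ 2 + 2 * e))) := by
    rcases hg with h | h
    · rw [he, h, one_mul]; exact hc1
    · rw [he, h]; exact hc2
  set N := 3 * (3 * s ^ 2 + e) * e * (3 * s ^ 2 + 2 * e) with hN
  have hN0 : 0 < N := by positivity
  obtain ⟨n, k, hnk, hsq⟩ := Nat.sq_mul_squarefree N
  have hk : 0 < k := by
    rcases Nat.eq_zero_or_pos k with h | h
    · rw [h] at hnk
      simp at hnk
      omega
    · exact h
  have hn0 : 0 < n := by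
    rcases Nat.eq_zero_or_pos n with h | h
    · rw [h] at hnk
      simp at hnk
      omega
    · exact h
  have hr0 : 0 < r := by omega
  obtain ⟨m, k', hmk, hsqm⟩ := Nat.sq_mul_squarefree (d * n)
  have hdn : 0 < d * n := Nat.mul_pos hd hn0
  have hk' : 0 < k' := by
    rcases Nat.eq_zero_or_pos k' with h | h
    · rw [h] at hmk
      simp at hmk
      omega
    · exact h
  have hm0 : 0 < m := by
    rcases Nat.eq_zero_or_pos m with h | h
    · rw [h] at hmk
      simp at hmk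
      omega
    · exact h
  -- `ℓ` divides `N` exactly once
  have hsum : d * r ^ 2 + (3 - g) * s ^ 2 = 3 * s ^ 2 + e := by
    rw [he]
    rcases hg with h | h
    · subst h; ring
    · subst h; ring
  rw [hsum] at hdvd hndvd
  have hℓs : ¬ ℓ ∣ s := fun h => absurd (Nat.le_of_dvd hs h) (by omega)
  have hℓ3 : ¬ ℓ ∣ 3 := fun h => absurd (Nat.le_of_dvd (by norm_num) h) (by omega)
  have hℓd : ¬ ℓ ∣ d := fun h => absurd (Nat.le_of_dvd hd h) (by omega)
  have hℓ3s : ¬ ℓ ∣ 3 * s ^ 2 := by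
    intro h
    rcases (hp.dvd_mul).1 h with h1 | h1
    · exact hℓ3 h1
    · exact hℓs (hp.dvd_of_dvd_pow h1)
  have hℓe : ¬ ℓ ∣ e := fun h => hℓ3s ((Nat.dvd_add_left h).1 hdvd)
  have hℓf : ¬ ℓ ∣ 3 * s ^ 2 + 2 * e := by
    intro h
    have e1 : 3 * s ^ 2 + 2 * e = (3 * s ^ 2 + e) + e := by ring
    rw [e1] at h
    exact hℓe ((Nat.dvd_add_right hdvd).1 h)
  have hℓN : ¬ ℓ ^ 2 ∣ N := by
    intro h
    apply hndvd
    have hc : Nat.Coprime (ℓ ^ 2) (3 * e * (3 * s ^ 2 + 2 * e)) := by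
      apply Nat.Coprime.pow_left
      rw [Nat.Prime.coprime_iff_not_dvd hp]
      intro h1
      rcases (hp.dvd_mul).1 h1 with h2 | h2
      · rcases (hp.dvd_mul).1 h2 with h3 | h3
        · exact hℓ3 h3
        · exact hℓe h3
      · exact hℓf h2
    have e1 : N = (3 * e * (3 * s ^ 2 + 2 * e)) * (3 * s ^ 2 + e) := by rw [hN]; ring
    rw [e1] at h
    exact hc.dvd_of_dvd_mul_left h
  have hℓk : ¬ ℓ ∣ k := by
    intro h
    apply hℓN
    rw [← hnk]
    exact Dvd.dvd.mul_right (pow_dvd_pow_of_dvd h 2) n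
  have hℓn : ℓ ∣ n := by
    have h1 : ℓ ∣ k ^ 2 * n := by
      rw [hnk, hN]
      exact Dvd.dvd.mul_right (Dvd.dvd.mul_right (Dvd.dvd.mul_left hdvd 3) e) _
    rcases (hp.dvd_mul).1 h1 with h2 | h2
    · exact absurd (hp.dvd_of_dvd_pow h2) hℓk
    · exact h2
  have hℓm : ℓ ∣ m := by
    have h1 : ℓ ∣ k' ^ 2 * m := by
      rw [hmk]
      exact Dvd.dvd.mul_left hℓn d
    rcases (hp.dvd_mul).1 h1 with h2 | h2
    · exfalso
      have h3 : ℓ ∣ k' := hp.dvd_of_dvd_pow h2
      have h4 : ℓ ^ 2 ∣ d * n := by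
        rw [← hmk]
        exact Dvd.dvd.mul_right (pow_dvd_pow_of_dvd h3 2) m
      have h5 : ℓ ^ 2 ∣ n := by
        refine Nat.Coprime.dvd_of_dvd_mul_left ?_ h4
        apply Nat.Coprime.pow_left
        rw [Nat.Prime.coprime_iff_not_dvd hp]
        exact hℓd
      apply hℓN
      rw [← hnk]
      exact Dvd.dvd.mul_left h5 (k ^ 2)
    · exact h2
  refine ⟨r, n, m, k, k', e, lt_of_lt_of_le (by omega) (Nat.le_of_dvd hn0 hℓn),
    lt_of_lt_of_le (by omega) (Nat.le_of_dvd hm0 hℓm), hsq, hsqm, hrM, he, hnk, hmk, ?_, ?_⟩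
  · refine cong_scale (k := s * k) (by positivity) ?_
    have e1 : n * (s * k) ^ 2 = s ^ 2 * N := by rw [← hnk]; ring
    rw [e1]
    exact hcb
  · refine cong_scale (k := k' * (r * k)) (by positivity) ?_
    have e1 : m * (k' * (r * k)) ^ 2 = d * r ^ 2 * N := by
      calc m * (k' * (r * k)) ^ 2 = (k' ^ 2 * m) * (r * k) ^ 2 := by ring
        _ = d * r ^ 2 * (k ^ 2 * n) := by rw [hmk]; ring
        _ = d * r ^ 2 * N := by rw [hnk]
    rw [e1]
    exact hca

/-- All classes of `N` occur, whatever the class of `d`. -/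
theorem tab (d c : ℕ) (hd : d = 1 ∨ d = 3 ∨ d = 5 ∨ d = 7 ∨ d = 2 ∨ d = 6 ∨ d = 10 ∨ d = 14)
    (hc : c = 1 ∨ c = 3 ∨ c = 5 ∨ c = 7 ∨ c = 2 ∨ c = 6 ∨ c = 10 ∨ c = 14) :
    ∃ g r s j e y : ℕ, (g = 1 ∨ g = 2) ∧ 0 < s ∧ j ≤ 2 ∧ (g * s ^ 2 + e) % 256 = (d * r ^ 2) % 256 ∧
      (3 * (3 * s ^ 2 + e) * e * (3 * s ^ 2 + 2 * e)) % 256 = (4 ^ j * y) % 256 ∧
      y % 8 = c % 8 ∧ (c % 2 = 0 → y % 16 = c % 16) ∧ y % 4 ≠ 0 := by
  rcases hd with rfl | rfl | rfl | rfl | rfl | rfl | rfl | rfl <;>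
    rcases hc with rfl | rfl | rfl | rfl | rfl | rfl | rfl | rfl
  · exact ⟨1, 7, 1, 2, 48, 1, by decide, by decide, by decide, by decide, by decide, by decide, by decide, by decide⟩
  · exact ⟨1, 5, 3, 2, 16, 11, by decide, by decide, by decide, by decide, by decide, by decide, by decide, by decide⟩
  · exact ⟨1, 3, 5, 2, 240, 5, by decide, by decide, by decide, by decide, by decide, by decide, by decide, by decide⟩
  · exact ⟨1, 1, 7, 2, 208, 15, by decide, by decide, by decide, by decide, by decide, by decide, by decide, by decide⟩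
  · exact ⟨2, 2, 1, 0, 2, 210, by decide, by decide, by decide, by decide, by decide, by decide, by decide, by decide⟩
  · exact ⟨2, 0, 1, 0, 254, 6, by decide, by decide, by decide, by decide, by decide, by decide, by decide, by decide⟩
  · exact ⟨1, 0, 1, 0, 255, 250, by decide, by decide, by decide, by decide, by decide, by decide, by decide, by decide⟩
  · exact ⟨1, 1, 5, 1, 232, 46, by decide, by decide, by decide, by decide, by decide, by decide, by decide, by decide⟩
  · exact ⟨2, 3, 1, 1, 25, 49, by decide, by decide, by decide, by decide, by decide, by decide, by decide, by decide⟩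
  · exact ⟨2, 7, 1, 1, 145, 59, by decide, by decide, by decide, by decide, by decide, by decide, by decide, by decide⟩
  · exact ⟨2, 1, 3, 1, 241, 21, by decide, by decide, by decide, by decide, by decide, by decide, by decide, by decide⟩
  · exact ⟨2, 1, 1, 1, 1, 15, by decide, by decide, by decide, by decide, by decide, by decide, by decide, by decide⟩
  · exact ⟨1, 1, 1, 0, 2, 210, by decide, by decide, by decide, by decide, by decide, by decide, by decide, by decide⟩
  · exact ⟨2, 0, 1, 0, 254, 6, by decide, by decide, by decide, by decide, by decide, by decide, by decide, by decide⟩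
  · exact ⟨1, 0, 1, 0, 255, 250, by decide, by decide, by decide, by decide, by decide, by decide, by decide, by decide⟩
  · exact ⟨1, 2, 1, 0, 11, 30, by decide, by decide, by decide, by decide, by decide, by decide, by decide, by decide⟩
  · exact ⟨1, 1, 3, 1, 252, 33, by decide, by decide, by decide, by decide, by decide, by decide, by decide, by decide⟩
  · exact ⟨1, 7, 1, 1, 244, 27, by decide, by decide, by decide, by decide, by decide, by decide, by decide, by decide⟩
  · exact ⟨1, 3, 1, 1, 44, 21, by decide, by decide, by decide, by decide, by decide, by decide, by decide, by decide⟩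
  · exact ⟨1, 1, 1, 1, 4, 39, by decide, by decide, by decide, by decide, by decide, by decide, by decide, by decide⟩
  · exact ⟨2, 2, 1, 0, 18, 194, by decide, by decide, by decide, by decide, by decide, by decide, by decide, by decide⟩
  · exact ⟨2, 0, 1, 0, 254, 6, by decide, by decide, by decide, by decide, by decide, by decide, by decide, by decide⟩
  · exact ⟨1, 0, 1, 0, 255, 250, by decide, by decide, by decide, by decide, by decide, by decide, by decide, by decide⟩
  · exact ⟨2, 3, 1, 0, 43, 254, by decide, by decide, by decide, by decide, by decide, by decide, by decide, by decide⟩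
  · exact ⟨2, 5, 1, 2, 173, 9, by decide, by decide, by decide, by decide, by decide, by decide, by decide, by decide⟩
  · exact ⟨2, 1, 3, 2, 245, 11, by decide, by decide, by decide, by decide, by decide, by decide, by decide, by decide⟩
  · exact ⟨2, 3, 7, 2, 221, 13, by decide, by decide, by decide, by decide, by decide, by decide, by decide, by decide⟩
  · exact ⟨2, 11, 1, 2, 77, 7, by decide, by decide, by decide, by decide, by decide, by decide, by decide, by decide⟩
  · exact ⟨2, 7, 1, 1, 85, 34, by decide, by decide, by decide, by decide, by decide, by decide, by decide, by decide⟩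
  · exact ⟨2, 0, 1, 0, 254, 6, by decide, by decide, by decide, by decide, by decide, by decide, by decide, by decide⟩
  · exact ⟨1, 0, 1, 0, 255, 250, by decide, by decide, by decide, by decide, by decide, by decide, by decide, by decide⟩
  · exact ⟨1, 1, 1, 0, 6, 126, by decide, by decide, by decide, by decide, by decide, by decide, by decide, by decide⟩
  · exact ⟨2, 5, 1, 2, 48, 1, by decide, by decide, by decide, by decide, by decide, by decide, by decide, by decide⟩
  · exact ⟨2, 3, 1, 2, 16, 11, by decide, by decide, by decide, by decide, by decide, by decide, by decide, by decide⟩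
  · exact ⟨2, 1, 3, 2, 240, 5, by decide, by decide, by decide, by decide, by decide, by decide, by decide, by decide⟩
  · exact ⟨1, 1, 1, 1, 1, 15, by decide, by decide, by decide, by decide, by decide, by decide, by decide, by decide⟩
  · exact ⟨1, 2, 1, 0, 7, 242, by decide, by decide, by decide, by decide, by decide, by decide, by decide, by decide⟩
  · exact ⟨2, 0, 1, 0, 254, 6, by decide, by decide, by decide, by decide, by decide, by decide, by decide, by decide⟩
  · exact ⟨1, 0, 1, 0, 255, 250, by decide, by decide, by decide, by decide, by decide, by decide, by decide, by decide⟩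
  · exact ⟨2, 2, 1, 0, 6, 126, by decide, by decide, by decide, by decide, by decide, by decide, by decide, by decide⟩
  · exact ⟨2, 1, 8, 2, 134, 1, by decide, by decide, by decide, by decide, by decide, by decide, by decide, by decide⟩
  · exact ⟨2, 3, 1, 1, 52, 11, by decide, by decide, by decide, by decide, by decide, by decide, by decide, by decide⟩
  · exact ⟨2, 1, 4, 2, 230, 13, by decide, by decide, by decide, by decide, by decide, by decide, by decide, by decide⟩
  · exact ⟨2, 1, 1, 1, 4, 39, by decide, by decide, by decide, by decide, by decide, by decide, by decide, by decide⟩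
  · exact ⟨1, 2, 1, 0, 23, 98, by decide, by decide, by decide, by decide, by decide, by decide, by decide, by decide⟩
  · exact ⟨2, 0, 1, 0, 254, 6, by decide, by decide, by decide, by decide, by decide, by decide, by decide, by decide⟩
  · exact ⟨1, 0, 1, 0, 255, 250, by decide, by decide, by decide, by decide, by decide, by decide, by decide, by decide⟩
  · exact ⟨2, 2, 1, 0, 22, 238, by decide, by decide, by decide, by decide, by decide, by decide, by decide, by decide⟩
  · exact ⟨1, 3, 1, 1, 89, 33, by decide, by decide, by decide, by decide, by decide, by decide, by decide, by decide⟩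
  · exact ⟨2, 1, 4, 2, 234, 3, by decide, by decide, by decide, by decide, by decide, by decide, by decide, by decide⟩
  · exact ⟨1, 1, 1, 1, 9, 37, by decide, by decide, by decide, by decide, by decide, by decide, by decide, by decide⟩
  · exact ⟨2, 1, 8, 2, 138, 7, by decide, by decide, by decide, by decide, by decide, by decide, by decide, by decide⟩
  · exact ⟨1, 2, 1, 0, 39, 210, by decide, by decide, by decide, by decide, by decide, by decide, by decide, by decide⟩
  · exact ⟨2, 0, 1, 0, 254, 6, by decide, by decide, by decide, by decide, by decide, by decide, by decide, by decide⟩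
  · exact ⟨1, 0, 1, 0, 255, 250, by decide, by decide, by decide, by decide, by decide, by decide, by decide, by decide⟩
  · exact ⟨2, 2, 1, 0, 38, 94, by decide, by decide, by decide, by decide, by decide, by decide, by decide, by decide⟩
  · exact ⟨2, 3, 1, 1, 124, 17, by decide, by decide, by decide, by decide, by decide, by decide, by decide, by decide⟩
  · exact ⟨1, 1, 1, 2, 13, 11, by decide, by decide, by decide, by decide, by decide, by decide, by decide, by decide⟩
  · exact ⟨2, 1, 1, 1, 12, 61, by decide, by decide, by decide, by decide, by decide, by decide, by decide, by decide⟩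
  · exact ⟨1, 15, 1, 2, 77, 7, by decide, by decide, by decide, by decide, by decide, by decide, by decide, by decide⟩
  · exact ⟨1, 2, 1, 0, 55, 66, by decide, by decide, by decide, by decide, by decide, by decide, by decide, by decide⟩
  · exact ⟨2, 0, 1, 0, 254, 6, by decide, by decide, by decide, by decide, by decide, by decide, by decide, by decide⟩
  · exact ⟨1, 0, 1, 0, 255, 250, by decide, by decide, by decide, by decide, by decide, by decide, by decide, by decide⟩
  · exact ⟨2, 2, 1, 0, 54, 206, by decide, by decide, by decide, by decide, by decide, by decide, by decide, by decide⟩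

/-- Representatives of the classes. -/
theorem root : ∀ x < 256, x % 4 ≠ 0 → ∃ i < 32, (x * (2 * i + 1) ^ 2) % 256 = 1 ∨
    (x * (2 * i + 1) ^ 2) % 256 = 3 ∨ (x * (2 * i + 1) ^ 2) % 256 = 5 ∨
    (x * (2 * i + 1) ^ 2) % 256 = 7 ∨ (x * (2 * i + 1) ^ 2) % 256 = 2 ∨
    (x * (2 * i + 1) ^ 2) % 256 = 6 ∨ (x * (2 * i + 1) ^ 2) % 256 = 10 ∨
    (x * (2 * i + 1) ^ 2) % 256 = 14 := by
  decide +kernel

theorem odd_sq16 (c : ℕ) (hc : c % 2 = 1) : (c ^ 2) % 16 = 1 ∨ (c ^ 2) % 16 = 9 := by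
  have : c % 16 = 1 ∨ c % 16 = 3 ∨ c % 16 = 5 ∨ c % 16 = 7 ∨ c % 16 = 9 ∨ c % 16 = 11 ∨
      c % 16 = 13 ∨ c % 16 = 15 := by omega
  rcases this with h | h | h | h | h | h | h | h <;> simp [Nat.pow_mod, h]

/-- The class of a squarefree part, base case. -/
theorem part_base {k m c : ℕ} (h : (k ^ 2 * m) % 16 = c % 16) (hc : c % 4 ≠ 0) :
    m % 8 = c % 8 ∧ (c % 2 = 0 → m % 16 = c % 16) := by
  have hkodd : k % 2 = 1 := by
    by_contra h0
    have h1 : k % 2 = 0 := by omega
    obtain ⟨c', hc'⟩ := Nat.dvd_of_mod_eq_zero h1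
    have h2 : k ^ 2 * m = 4 * (c' ^ 2 * m) := by rw [hc']; ring
    omega
  rcases odd_sq16 k hkodd with h1 | h1
  · rw [Nat.mul_mod, h1] at h
    omega
  · rw [Nat.mul_mod, h1] at h
    omega

/-- The class of a squarefree part, descent. -/
theorem part_step {k m x : ℕ} (hm : m % 4 ≠ 0) (h : k ^ 2 * m = 4 * x) : ∃ k', k' ^ 2 * m = x := by
  have hkeven : k % 2 = 0 := by
    by_contra h0
    have hkodd : k % 2 = 1 := by omega
    rcases odd_sq16 k hkodd with h1 | h1
    · have h2 : (k ^ 2 * m) % 16 = (1 * (m % 16)) % 16 := by rw [Nat.mul_mod, h1]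
      omega
    · have h2 : (k ^ 2 * m) % 16 = (9 * (m % 16)) % 16 := by rw [Nat.mul_mod, h1]
      omega
  obtain ⟨c, hc⟩ := Nat.dvd_of_mod_eq_zero hkeven
  refine ⟨c, ?_⟩
  have : 4 * (c ^ 2 * m) = 4 * x := by rw [← h, hc]; ring
  omega

/-- The class of a squarefree part. -/
theorem part {k m x y j : ℕ} (hm : m % 4 ≠ 0) (h : k ^ 2 * m = x) (hj : j ≤ 2)
    (hx : x % 256 = (4 ^ j * y) % 256) (hy : y % 4 ≠ 0) :
    m % 8 = y % 8 ∧ (y % 2 = 0 → m % 16 = y % 16) := by
  have : j = 0 ∨ j = 1 ∨ j = 2 := by omega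
  rcases this with rfl | rfl | rfl
  · refine part_base (k := k) ?_ hy
    rw [h]
    simp only [pow_zero, one_mul] at hx
    omega
  · simp only [pow_one] at hx
    obtain ⟨k', hk'⟩ := part_step (k := k) (x := x / 4) hm (by omega)
    refine part_base (k := k') ?_ hy
    rw [hk']
    omega
  · norm_num at hx
    obtain ⟨k', hk'⟩ := part_step (k := k) (x := x / 4) hm (by omega)
    obtain ⟨k'', hk''⟩ := part_step (k := k') (x := x / 4 / 4) hm (by omega)
    refine part_base (k := k'') ?_ hy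
    rw [hk'']
    omega

theorem sqfree_mod {n : ℕ} (h : Squarefree n) : n % 4 ≠ 0 := by
  intro h0
  have h1 : 2 * 2 ∣ n := Nat.dvd_of_mod_eq_zero h0
  exact absurd (Nat.isUnit_iff.1 (h 2 h1)) (by norm_num)

theorem mul_class {u v : ℕ} (h : u % 8 = v % 8) (h' : v % 2 = 1) : (u * v) % 8 = 1 := by
  have : v % 8 = 1 ∨ v % 8 = 3 ∨ v % 8 = 5 ∨ v % 8 = 7 := by omega
  rw [Nat.mul_mod, h]
  rcases this with h1 | h1 | h1 | h1 <;> rw [h1]

theorem odd_mul_mod4 {u v : ℕ} (h : u % 2 = 1) (h' : v % 4 ≠ 0) : (u * v) % 4 ≠ 0 := by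
  have h1 : u % 4 = 1 ∨ u % 4 = 3 := by omega
  have h2 : v % 4 = 1 ∨ v % 4 = 2 ∨ v % 4 = 3 := by omega
  rw [Nat.mul_mod]
  rcases h1 with h1 | h1 <;> rcases h2 with h2 | h2 | h2 <;> rw [h1, h2] <;> norm_num

/-- The pairs: the class of `n` in the square classes of the `2`-adic numbers is prescribed. -/
theorem pairs (d n₀ B : ℕ) (hd : d % 4 ≠ 0) (hn₀ : n₀ % 4 ≠ 0) :
    ∃ n m k' : ℕ, B < n ∧ B < m ∧ Squarefree n ∧ Squarefree m ∧ n % 8 = n₀ % 8 ∧
      (n₀ % 2 = 0 → n % 16 = n₀ % 16) ∧ k' ^ 2 * m = d * n ∧ Congruent n ∧ Congruent m := by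
  have hd0 : 0 < d := by omega
  obtain ⟨i, -, hi⟩ := root (d % 256) (Nat.mod_lt _ (by norm_num)) (by omega)
  obtain ⟨w, hw⟩ : ∃ w, w = 2 * i + 1 := ⟨_, rfl⟩
  rw [← hw] at hi
  have hdw : (d * w ^ 2) % 256 = (d % 256 * w ^ 2) % 256 :=
    (Nat.mod_modEq d 256).symm.mul_right _
  rw [← hdw] at hi
  obtain ⟨δ, hδ⟩ : ∃ δ, δ = (d * w ^ 2) % 256 := ⟨_, rfl⟩
  rw [← hδ] at hi
  obtain ⟨c, hc, hc8, hc16⟩ : ∃ c : ℕ, (c = 1 ∨ c = 3 ∨ c = 5 ∨ c = 7 ∨ c = 2 ∨ c = 6 ∨ c = 10 ∨
      c = 14) ∧ n₀ % 8 = c % 8 ∧ (n₀ % 2 = 0 → n₀ % 16 = c % 16) := by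
    by_cases h : n₀ % 2 = 0
    · exact ⟨n₀ % 16, by omega, by omega, fun _ => by omega⟩
    · exact ⟨n₀ % 8, by omega, by omega, fun h' => absurd h' h⟩
  obtain ⟨g, r', s, j, e', y, hg, hs, hj, h1, h2, h3, h4, h5⟩ := tab δ c hi hc
  clear hi hc
  obtain ⟨r, n, m, k, k', e, hBn, hBm, hsn, hsm, hr, he, hnk, hmk, hcn, hcm⟩ :=
    construct d s (w * r') 256 B g hd0 hs (by norm_num) hg
  have hdr : (d * r ^ 2) % 256 = (δ * r' ^ 2) % 256 := by
    have a1 : d * r ^ 2 ≡ d * (w * r') ^ 2 [MOD 256] := Nat.ModEq.mul_left d (Nat.ModEq.pow 2 hr)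
    have a2 : d * (w * r') ^ 2 = (d * w ^ 2) * r' ^ 2 := by ring
    have a3 : (d * w ^ 2) * r' ^ 2 ≡ δ * r' ^ 2 [MOD 256] := by
      rw [hδ]
      exact (Nat.mod_modEq _ _).symm.mul_right _
    rw [a2] at a1
    exact a1.trans a3
  have hee : e % 256 = e' % 256 := by omega
  have hN : (3 * (3 * s ^ 2 + e) * e * (3 * s ^ 2 + 2 * e)) % 256 = (4 ^ j * y) % 256 := by
    rw [← h2]
    have h6 : e ≡ e' [MOD 256] := hee
    exact ((((h6.add_left (3 * s ^ 2)).mul_left 3).mul h6).mul ((h6.mul_left 2).add_left (3 * s ^ 2)))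
  obtain ⟨h7, h8⟩ := part (sqfree_mod hsn) hnk hj hN h5
  refine ⟨n, m, k', hBn, hBm, hsn, hsm, by omega, ?_, hmk, hcn, hcm⟩
  intro h9
  have h10 := hc16 h9
  have h11 : c % 2 = 0 := by omega
  have h12 := h4 h11
  have h13 := h8 (by omega)
  omega

/-- **Pairs of congruent numbers with a prescribed quotient, in prescribed classes modulo `8`.** For all
squarefree `n₀`, `m₀` there are arbitrarily large squarefree congruent numbers `n`, `m` in the classes of
`n₀`, `m₀` modulo `8`, such that `n m n₀ m₀` is a square. -/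
theorem pairs_all_classes (n₀ m₀ : ℕ) (h₀ : Squarefree n₀) (h₁ : Squarefree m₀) (B : ℕ) :
    ∃ n m : ℕ, B < n ∧ B < m ∧ Squarefree n ∧ Squarefree m ∧ n % 8 = n₀ % 8 ∧ m % 8 = m₀ % 8 ∧
      IsSquare (n * m * (n₀ * m₀)) ∧ Congruent n ∧ Congruent m := by
  have hn4 := sqfree_mod h₀
  have hm4 := sqfree_mod h₁
  rcases Nat.even_or_odd n₀ with hn | hn
  · have hn2 : n₀ % 2 = 0 := Nat.even_iff.1 hn
    obtain ⟨u₀, hu₀⟩ : ∃ u₀, n₀ = 2 * u₀ := ⟨n₀ / 2, by omega⟩
    rcases Nat.even_or_odd m₀ with hm | hm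
    · -- both even
      have hm2 : m₀ % 2 = 0 := Nat.even_iff.1 hm
      obtain ⟨v₀, hv₀⟩ : ∃ v₀, m₀ = 2 * v₀ := ⟨m₀ / 2, by omega⟩
      have hodd : (u₀ * v₀) % 2 = 1 := by
        rw [Nat.mul_mod, show u₀ % 2 = 1 by omega, show v₀ % 2 = 1 by omega]
      obtain ⟨n, m, k', hBn, hBm, hsn, hsm, h8, h16, hmk, hcn, hcm⟩ :=
        pairs (u₀ * v₀) n₀ B (by omega) hn4
      have h17 := h16 hn2
      obtain ⟨u, hu⟩ : ∃ u, n = 2 * u := ⟨n / 2, by omega⟩
      have huu : (u * u₀) % 8 = 1 := mul_class (by omega) (by omega)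
      have hx : (u₀ * v₀ * n) % 256 = (4 ^ 0 * (u₀ * v₀ * n)) % 256 := by rw [pow_zero, one_mul]
      have hcl : (u₀ * v₀ * n) % 16 = m₀ % 16 := by
        obtain ⟨q, hq⟩ : ∃ q, u * u₀ = 8 * q + 1 := ⟨(u * u₀) / 8, by omega⟩
        have e1 : u₀ * v₀ * n = 16 * (q * v₀) + m₀ := by
          calc u₀ * v₀ * n = 2 * (u * u₀) * v₀ := by rw [hu]; ring
            _ = 16 * (q * v₀) + m₀ := by rw [hq, hv₀]; ring
        rw [e1]
        omega
      obtain ⟨h18, -⟩ := part (sqfree_mod hsm) hmk (by norm_num) hx (by omega)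
      refine ⟨n, m, hBn, hBm, hsn, hsm, h8, by omega, ⟨2 * (k' * m), ?_⟩, hcn, hcm⟩
      calc n * m * (n₀ * m₀) = 4 * (u₀ * v₀ * n) * m := by rw [hu₀, hv₀]; ring
        _ = 2 * (k' * m) * (2 * (k' * m)) := by rw [← hmk]; ring
    · -- `n₀` even, `m₀` odd
      have hm2 : m₀ % 2 = 1 := Nat.odd_iff.1 hm
      have hu2 : (u₀ * m₀) % 2 = 1 := by
        rw [Nat.mul_mod, show u₀ % 2 = 1 by omega, hm2]
      obtain ⟨n, m, k', hBn, hBm, hsn, hsm, h8, h16, hmk, hcn, hcm⟩ :=
        pairs (n₀ * m₀) n₀ B (by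
          have : n₀ * m₀ = 2 * (u₀ * m₀) := by rw [hu₀]; ring
          omega) hn4
      have h17 := h16 hn2
      obtain ⟨u, hu⟩ : ∃ u, n = 2 * u := ⟨n / 2, by omega⟩
      have huu : (u * u₀) % 8 = 1 := mul_class (by omega) (by omega)
      obtain ⟨q, hq⟩ : ∃ q, u * u₀ = 8 * q + 1 := ⟨(u * u₀) / 8, by omega⟩
      have e1 : n₀ * m₀ * n = 4 * (8 * (q * m₀) + m₀) := by
        calc n₀ * m₀ * n = 4 * (u * u₀) * m₀ := by rw [hu, hu₀]; ring
          _ = 4 * (8 * (q * m₀) + m₀) := by rw [hq]; ring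
      have hx : (n₀ * m₀ * n) % 256 = (4 ^ 1 * (8 * (q * m₀) + m₀)) % 256 := by rw [e1, pow_one]
      obtain ⟨h18, -⟩ := part (sqfree_mod hsm) hmk (by norm_num) hx (by omega)
      refine ⟨n, m, hBn, hBm, hsn, hsm, h8, by omega, ⟨k' * m, ?_⟩, hcn, hcm⟩
      calc n * m * (n₀ * m₀) = (n₀ * m₀ * n) * m := by ring
        _ = k' * m * (k' * m) := by rw [← hmk]; ring
  · -- `n₀` odd
    have hn2 : n₀ % 2 = 1 := Nat.odd_iff.1 hn
    obtain ⟨n, m, k', hBn, hBm, hsn, hsm, h8, -, hmk, hcn, hcm⟩ :=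
      pairs (n₀ * m₀) n₀ B (odd_mul_mod4 hn2 hm4) hn4
    have huu : (n * n₀) % 8 = 1 := mul_class (by omega) (by omega)
    obtain ⟨q, hq⟩ : ∃ q, n * n₀ = 8 * q + 1 := ⟨(n * n₀) / 8, by omega⟩
    have e1 : n₀ * m₀ * n = 8 * (q * m₀) + m₀ := by
      calc n₀ * m₀ * n = (n * n₀) * m₀ := by ring
        _ = 8 * (q * m₀) + m₀ := by rw [hq]; ring
    have hx : (n₀ * m₀ * n) % 256 = (4 ^ 0 * (n₀ * m₀ * n)) % 256 := by rw [pow_zero, one_mul]
    obtain ⟨h18, -⟩ := part (sqfree_mod hsm) hmk (by norm_num) hx (by omega)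
    refine ⟨n, m, hBn, hBm, hsn, hsm, h8, by omega, ⟨k' * m, ?_⟩, hcn, hcm⟩
    calc n * m * (n₀ * m₀) = (n₀ * m₀ * n) * m := by ring
      _ = k' * m * (k' * m) := by rw [← hmk]; ring

end Pool.Agent.K6.H24.CN.PairsAllClasses
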